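import Pool.Agent.K4H80.LDim.Final

/-! # The maximum local `t`-dimension of an `n`-element poset is `(1/4 + o(1)) n / log₂ n`

The definitions (`IsMono`, `IsRealiser`, `mult`, `ldim`, `M`) are in
`Pool/Agent/K4H80/LDim/Defs.lean`.

* Lower bound: counting. A height-two poset on `n` points is determined by any of its local
  realisers, and a local realiser with all multiplicities at most `D` is encoded by a word of length
  `n D` over an alphabet with `4 n + 1` letters, whatever `t` is.
* Upper bound: Szemerédi's regularity lemma for the incomparability graph together with a linear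
  extension shows that the pairs of cells where comparability looks random form a triangle-free
  graph; by Hall's theorem its edges can be distributed evenly between the two end points, and each
  such pair is covered by two-valued functions read off from blocks of size `(1 - δ) log₂ n`. All
  other pairs are covered by much larger blocks, on which almost all patterns are nearly trivial.
-/

namespace Pool.Agent.Results.MP_bb6eef_co.LocalDimAsymptotics

open Filter Topology Pool.Agent.K4H80.LD

/-- `M t n = (1/4 + o(1)) n / log₂ n` uniformly in `t ≥ 2`, and so `M t n / M 2 n → 1`. -/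
theorem result :
    (∀ ε : ℝ, 0 < ε → ∃ n₀ : ℕ, ∀ n : ℕ, n₀ ≤ n → ∀ t : ℕ, 2 ≤ t →
      |(M t n : ℝ) * Real.logb 2 n / n - 1 / 4| ≤ ε) ∧
    ∀ t : ℕ, 3 ≤ t → Tendsto (fun n : ℕ => (M t n : ℝ) / (M 2 n : ℝ)) atTop (𝓝 1) :=
  ⟨both, fun t ht => ratio t (by omega)⟩

end Pool.Agent.Results.MP_bb6eef_co.LocalDimAsymptotics
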